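import Mathlib

set_option autoImplicit false

namespace Pool.Agent.H.MP_aa6e80_co

open Finset

/-- Eulerian numbers, indexed by an integer. -/
noncomputable def A : ℕ → ℤ → ℝ
  | 0, k => if k = 0 then 1 else 0
  | n + 1, k => ((k : ℝ) + 1) * A n k + ((n : ℝ) + 1 - k) * A n (k - 1)

lemma A_zero (k : ℤ) : A 0 k = if k = 0 then 1 else 0 := rfl

lemma A_succ (n : ℕ) (k : ℤ) :
    A (n + 1) k = ((k : ℝ) + 1) * A n k + ((n : ℝ) + 1 - k) * A n (k - 1) := rfl

lemma A_neg (n : ℕ) : ∀ k : ℤ, k < 0 → A n k = 0 := by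
  induction n with
  | zero => intro k hk; rw [A_zero, if_neg (by omega)]
  | succ n ih => intro k hk; rw [A_succ, ih k hk, ih (k - 1) (by omega)]; ring

lemma A_big (n : ℕ) : ∀ k : ℤ, (n : ℤ) ≤ k → 1 ≤ k → A n k = 0 := by
  induction n with
  | zero => intro k _ hk; rw [A_zero, if_neg (by omega)]
  | succ n ih =>
    intro k hk h1
    rw [A_succ, ih k (by push_cast at hk; omega) h1]
    by_cases h : k = (n : ℤ) + 1
    · have : ((n : ℝ) + 1 - k) = 0 := by rw [h]; push_cast; ring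
      rw [this]; ring
    · rw [ih (k - 1) (by push_cast at hk; omega) (by push_cast at hk; omega)]; ring

lemma A_nonneg (n : ℕ) : ∀ k : ℤ, 0 ≤ A n k := by
  induction n with
  | zero => intro k; rw [A_zero]; split_ifs <;> norm_num
  | succ n ih =>
    intro k
    by_cases h0 : k < 0
    · rw [A_neg _ k h0]
    by_cases h1 : (n : ℤ) + 1 ≤ k
    · rw [A_big _ k (by push_cast; omega) (by omega)]
    rw [A_succ]
    have h2 : (0 : ℝ) ≤ (k : ℝ) := by exact_mod_cast (by omega : (0 : ℤ) ≤ k)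
    have h3 : (k : ℝ) ≤ (n : ℝ) := by exact_mod_cast (by omega : k ≤ (n : ℤ))
    have := ih k
    have := ih (k - 1)
    have h4 : (0 : ℝ) ≤ (n : ℝ) + 1 - k := by linarith
    positivity

lemma A_at_zero (n : ℕ) : A n 0 = 1 := by
  induction n with
  | zero => simp [A_zero]
  | succ n ih => rw [A_succ, ih, A_neg n (0 - 1) (by omega)]; simp

lemma A_pos (n : ℕ) : ∀ k : ℤ, 0 ≤ k → k < n → 0 < A n k := by
  induction n with
  | zero => intro k h0 h1; exfalso; push_cast at h1; omega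
  | succ n ih =>
    intro k h0 h1
    by_cases hk : k = 0
    · rw [hk, A_at_zero]; norm_num
    rw [A_succ]
    have h2 : (0 : ℝ) ≤ (k : ℝ) := by exact_mod_cast h0
    have h3 : (k : ℝ) ≤ (n : ℝ) := by
      exact_mod_cast (by push_cast at h1; omega : k ≤ (n : ℤ))
    have h5 := A_nonneg n k
    have h6 := ih (k - 1) (by omega) (by push_cast at h1; omega)
    have h4 : (0 : ℝ) < (n : ℝ) + 1 - k := by linarith
    positivity

lemma A_symm (n : ℕ) : ∀ k : ℤ, A (n + 1) ((n : ℤ) - k) = A (n + 1) k := by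
  induction n with
  | zero =>
    intro k
    simp only [A_succ, A_zero]
    by_cases h0 : k = 0
    · subst h0; simp
    by_cases h1 : k = 1
    · subst h1; simp
    by_cases h2 : k = -1
    · subst h2; simp
    rw [if_neg (by push_cast; omega), if_neg (by push_cast; omega), if_neg h0,
      if_neg (by omega)]
    simp
  | succ n ih =>
    intro k
    rw [A_succ (n + 1), A_succ (n + 1)]
    have e1 : ((n + 1 : ℕ) : ℤ) - k = (n : ℤ) - (k - 1) := by push_cast; ring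
    have e2 : ((n + 1 : ℕ) : ℤ) - k - 1 = (n : ℤ) - k := by push_cast; ring
    rw [e2, ih k]
    conv_lhs => rw [e1, ih (k - 1)]
    push_cast; ring

lemma S_step (P k t u v w : ℝ) (hP : 2 ≤ P) (hk : 1 ≤ k) (ht : 0 ≤ t) (hu : 0 < u) (hv : 0 < v)
    (hw : 0 ≤ w) (h1 : P ^ 3 * (u * w) ≤ (P - 1) ^ 3 * v ^ 2)
    (h2 : (P + 1) ^ 3 * (t * v) ≤ P ^ 3 * u ^ 2) :
    (P + 1) ^ 3 * ((k * u + (P + 1) * t) * ((k + 2) * w + (P - 1) * v))
      ≤ P ^ 3 * ((k + 1) * v + P * u) ^ 2 := by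
  have hP0 : 0 < P := by linarith
  have hP3 : 0 < P ^ 3 := by positivity
  have hP1 : 0 ≤ P - 1 := by linarith
  have h3 : (P + 1) ^ 3 * (t * w) ≤ (P - 1) ^ 3 * (u * v) := by
    have hm : (P ^ 3 * (u * w)) * ((P + 1) ^ 3 * (t * v))
        ≤ ((P - 1) ^ 3 * v ^ 2) * (P ^ 3 * u ^ 2) :=
      mul_le_mul h1 h2 (by positivity) (by positivity)
    have hc : 0 < P ^ 3 * (u * v) := by positivity
    have : (P ^ 3 * (u * v)) * ((P + 1) ^ 3 * (t * w))
        ≤ (P ^ 3 * (u * v)) * ((P - 1) ^ 3 * (u * v)) := by nlinarith [hm]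
    exact le_of_mul_le_mul_left this hc
  have g1 : (P + 1) ^ 3 * (u * w) ≤ P ^ 3 * v ^ 2 := by
    have hq : ((P + 1) * (P - 1)) ^ 3 ≤ (P * P) ^ 3 :=
      pow_le_pow_left₀ (by positivity) (by nlinarith) 3
    have hm : (P + 1) ^ 3 * (P ^ 3 * (u * w)) ≤ (P + 1) ^ 3 * ((P - 1) ^ 3 * v ^ 2) :=
      mul_le_mul_of_nonneg_left h1 (by positivity)
    have hm2 : ((P + 1) * (P - 1)) ^ 3 * v ^ 2 ≤ (P * P) ^ 3 * v ^ 2 :=
      mul_le_mul_of_nonneg_right hq (by positivity)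
    have : P ^ 3 * ((P + 1) ^ 3 * (u * w)) ≤ P ^ 3 * (P ^ 3 * v ^ 2) := by nlinarith [hm, hm2]
    exact le_of_mul_le_mul_left this hP3
  have a1 : k * (k + 2) * ((P + 1) ^ 3 * (u * w)) ≤ k * (k + 2) * (P ^ 3 * v ^ 2) :=
    mul_le_mul_of_nonneg_left g1 (by positivity)
  have a2 : (P + 1) * (P - 1) * ((P + 1) ^ 3 * (t * v)) ≤ (P + 1) * (P - 1) * (P ^ 3 * u ^ 2) :=
    mul_le_mul_of_nonneg_left h2 (by positivity)
  have a3 : (P + 1) * (k + 2) * ((P + 1) ^ 3 * (t * w))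
      ≤ (P + 1) * (k + 2) * ((P - 1) ^ 3 * (u * v)) :=
    mul_le_mul_of_nonneg_left h3 (by positivity)
  have b1 : 0 ≤ P ^ 3 * v ^ 2 := by positivity
  have b2 : 0 ≤ P ^ 3 * u ^ 2 := by positivity
  have b3 : 0 ≤ (2 * (k + 1) + 4 * P * ((P + 1) * (P - 1))) * (u * v) := by positivity
  have e : P ^ 3 * ((k + 1) * v + P * u) ^ 2
      - (P + 1) ^ 3 * ((k * u + (P + 1) * t) * ((k + 2) * w + (P - 1) * v))
      = (k * (k + 2) * (P ^ 3 * v ^ 2) - k * (k + 2) * ((P + 1) ^ 3 * (u * w)))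
        + ((P + 1) * (P - 1) * (P ^ 3 * u ^ 2) - (P + 1) * (P - 1) * ((P + 1) ^ 3 * (t * v)))
        + ((P + 1) * (k + 2) * ((P - 1) ^ 3 * (u * v))
            - (P + 1) * (k + 2) * ((P + 1) ^ 3 * (t * w)))
        + P ^ 3 * v ^ 2 + P ^ 3 * u ^ 2
        + (2 * (k + 1) + 4 * P * ((P + 1) * (P - 1))) * (u * v) := by ring
  linarith

/-- strong log-concavity -/
lemma S_all (m : ℕ) : ∀ k : ℤ, ((m : ℝ) + 1 - k) ^ 3 * (A m (k - 1) * A m (k + 1))
    ≤ ((m : ℝ) - k) ^ 3 * A m k ^ 2 := by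
  induction m with
  | zero =>
    intro k
    simp only [A_zero]
    by_cases h0 : k = 0
    · subst h0; simp
    rw [if_neg h0]
    by_cases h1 : k - 1 = 0
    · rw [if_neg (show ¬ (k + 1 = 0) by omega)]; simp
    · rw [if_neg h1]; simp
  | succ m ih =>
    intro k
    have hz : A (m + 1) (k - 1) * A (m + 1) (k + 1) = 0 →
        (((m + 1 : ℕ) : ℝ) + 1 - k) ^ 3 * (A (m + 1) (k - 1) * A (m + 1) (k + 1))
          ≤ (((m + 1 : ℕ) : ℝ) - k) ^ 3 * A (m + 1) k ^ 2 := by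
      intro h
      rw [h, mul_zero]
      by_cases h1 : k ≤ (m : ℤ) + 1
      · have : (k : ℝ) ≤ (m : ℝ) + 1 := by exact_mod_cast h1
        have h2 : (0 : ℝ) ≤ ((m + 1 : ℕ) : ℝ) - k := by push_cast; linarith
        positivity
      · rw [A_big (m + 1) k (by push_cast; omega) (by omega)]; simp
    by_cases h0 : k ≤ 0
    · apply hz; rw [A_neg _ (k - 1) (by omega), zero_mul]
    by_cases h1 : (m : ℤ) ≤ k
    · apply hz; rw [A_big _ (k + 1) (by push_cast; omega) (by omega), mul_zero]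
    have hk1 : (1 : ℝ) ≤ (k : ℝ) := by exact_mod_cast (by omega : (1 : ℤ) ≤ k)
    have hk2 : (k : ℝ) + 1 ≤ (m : ℝ) := by exact_mod_cast (by omega : k + 1 ≤ (m : ℤ))
    have i1 := ih k
    have i2 := ih (k - 1)
    have e0 : k - 1 + 1 = k := by ring
    rw [e0] at i2
    have hs := S_step ((m : ℝ) + 1 - k) k (A m (k - 1 - 1)) (A m (k - 1)) (A m k) (A m (k + 1))
      (by linarith) hk1 (A_nonneg _ _) (A_pos _ _ (by omega) (by omega))
      (A_pos _ _ (by omega) (by omega)) (A_nonneg _ _)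
      (by convert i1 using 3; ring) (by convert i2 using 3 <;> push_cast <;> ring)
    rw [A_succ, A_succ, A_succ]
    have e1 : k + 1 - 1 = k := by ring
    rw [e1]
    convert hs using 1 <;> push_cast <;> ring

lemma Q_step (J D u v w : ℝ) (hJ : 0 ≤ J) (hD : 0 ≤ D) (hv : 0 ≤ v)
    (h1 : D * v ≤ J * u) (h2 : (D + 2) * w ≤ (J - 1) * v) :
    (D + 1) * ((D + J + 3) * w + J * v) ≤ J * ((D + J + 2) * v + (J + 1) * u) := by
  have a1 : (D + 2) * (J + 1) * (D * v) ≤ (D + 2) * (J + 1) * (J * u) :=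
    mul_le_mul_of_nonneg_left h1 (by positivity)
  have a2 : (D + 1) * (D + J + 3) * ((D + 2) * w) ≤ (D + 1) * (D + J + 3) * ((J - 1) * v) :=
    mul_le_mul_of_nonneg_left h2 (by positivity)
  have b : 0 ≤ (J ^ 2 + 2 * D ^ 2 + 6 * D + 3) * v := by positivity
  have : (D + 2) * ((D + 1) * ((D + J + 3) * w + J * v))
      ≤ (D + 2) * (J * ((D + J + 2) * v + (J + 1) * u)) := by nlinarith [a1, a2, b]
  exact le_of_mul_le_mul_left this (by positivity)

lemma Q_all (m : ℕ) : ∀ k : ℤ, (2 * (k : ℝ) - m) * A (m + 1) (k + 1)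
    ≤ ((m : ℝ) - k) * A (m + 1) k := by
  have key : ∀ (m : ℕ) (k : ℤ), (2 * k ≤ (m : ℤ) ∨ (m : ℤ) ≤ k) →
      (2 * (k : ℝ) - m) * A (m + 1) (k + 1) ≤ ((m : ℝ) - k) * A (m + 1) k := by
    intro m k h
    by_cases h1 : (m : ℤ) ≤ k
    · rw [A_big _ (k + 1) (by push_cast; omega) (by omega), mul_zero]
      by_cases h2 : k = m
      · rw [h2]; simp
      · rw [A_big _ k (by push_cast; omega) (by omega), mul_zero]
    · have h2 : 2 * k ≤ (m : ℤ) := by omega
      have h3 : 2 * (k : ℝ) ≤ (m : ℝ) := by exact_mod_cast h2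
      have h4 : (k : ℝ) ≤ (m : ℝ) := by exact_mod_cast (by omega : k ≤ (m : ℤ))
      have := A_nonneg (m + 1) (k + 1)
      have := A_nonneg (m + 1) k
      nlinarith
  induction m with
  | zero => intro k; apply key; push_cast; omega
  | succ m ih =>
    intro k
    by_cases h : 2 * k ≤ ((m + 1 : ℕ) : ℤ) ∨ ((m + 1 : ℕ) : ℤ) ≤ k
    · exact key _ _ h
    have h1 : (m : ℤ) + 2 ≤ 2 * k := by push_cast at h; omega
    have h2 : k ≤ (m : ℤ) := by push_cast at h; omega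
    have h3 : (m : ℝ) + 2 ≤ 2 * (k : ℝ) := by exact_mod_cast h1
    have h4 : (k : ℝ) ≤ (m : ℝ) := by exact_mod_cast h2
    have i1 := ih (k - 1)
    have i2 := ih k
    have e0 : k - 1 + 1 = k := by ring
    rw [e0] at i1
    have hs := Q_step ((m : ℝ) + 1 - k) (2 * k - m - 2) (A (m + 1) (k - 1)) (A (m + 1) k)
      (A (m + 1) (k + 1)) (by linarith) (by linarith) (A_nonneg _ _)
      (by convert i1 using 2 <;> push_cast <;> ring) (by convert i2 using 2 <;> ring)
    rw [A_succ (m + 1) (k + 1), A_succ (m + 1) k]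
    have e1 : k + 1 - 1 = k := by ring
    rw [e1]
    convert hs using 1 <;> push_cast <;> ring

/-- adjacent form of the key monotonicity -/
lemma F3_adj (m : ℕ) (k : ℤ) (h1 : k ≤ (m : ℤ)) :
    (((m : ℝ) + 2 - k) * A (m + 2) k) * A (m + 1) (k + 1)
      ≤ (((m : ℝ) + 2 - (k + 1)) * A (m + 2) (k + 1)) * A (m + 1) k := by
  have hs := S_all (m + 1) k
  have hq := Q_all m k
  rw [A_succ (m + 1) (k + 1), A_succ (m + 1) k]
  have e1 : k + 1 - 1 = k := by ring
  rw [e1]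
  push_cast at hs ⊢
  have h4 : (k : ℝ) ≤ (m : ℝ) := by exact_mod_cast h1
  set u := A (m + 1) (k - 1)
  set v := A (m + 1) k
  set w := A (m + 1) (k + 1)
  have hv : 0 ≤ v := A_nonneg _ _
  obtain ⟨p, hp⟩ : ∃ p : ℝ, p = (m : ℝ) + 1 - k := ⟨_, rfl⟩
  have hm : (m : ℝ) = p - 1 + k := by linarith
  rw [hm] at hs hq ⊢
  have hp1 : 1 ≤ p := by linarith
  have a1 : (p + 1) * v * ((2 * k - (p - 1 + k)) * w) ≤ (p + 1) * v * ((p - 1 + k - k) * v) :=
    mul_le_mul_of_nonneg_left hq (by positivity)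
  have b : 0 ≤ v ^ 2 := by positivity
  have : (p + 1) * ((p - 1 + k + 2 - k) * ((k + 1) * v + (p - 1 + k + 1 + 1 - k) * u) * w)
      ≤ (p + 1) * ((p - 1 + k + 2 - (k + 1)) * ((k + 1 + 1) * w
        + (p - 1 + k + 1 + 1 - (k + 1)) * v) * v) := by nlinarith [hs, a1, b]
  exact le_of_mul_le_mul_left this (by positivity)

lemma F3 (m : ℕ) (l k : ℤ) (h : l ≤ k) :
    (((m : ℝ) + 2 - l) * A (m + 2) l) * A (m + 1) k
      ≤ (((m : ℝ) + 2 - k) * A (m + 2) k) * A (m + 1) l := by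
  have hC : ∀ j : ℤ, 0 ≤ ((m : ℝ) + 2 - j) * A (m + 2) j := by
    intro j
    by_cases hj : j ≤ (m : ℤ) + 2
    · have : (j : ℝ) ≤ (m : ℝ) + 2 := by exact_mod_cast hj
      exact mul_nonneg (by linarith) (A_nonneg _ _)
    · rw [A_big _ j (by push_cast; omega) (by omega), mul_zero]
  by_cases h0 : l < 0
  · rw [A_neg _ l h0, A_neg _ l h0]; simp
  induction k, h using Int.le_induction with
  | base => exact le_refl _
  | succ k hk ih =>
    by_cases h1 : (m : ℤ) ≤ k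
    · rw [A_big (m + 1) (k + 1) (by push_cast; omega) (by omega), mul_zero]
      exact mul_nonneg (hC _) (A_nonneg _ _)
    have hpos : 0 < A (m + 1) k := A_pos _ _ (by omega) (by push_cast; omega)
    have ha := F3_adj m k (by omega)
    have a1 := mul_le_mul_of_nonneg_right ih (A_nonneg (m + 1) (k + 1))
    have a2 := mul_le_mul_of_nonneg_right ha (A_nonneg (m + 1) l)
    push_cast
    have : A (m + 1) k * ((((m : ℝ) + 2 - l) * A (m + 2) l) * A (m + 1) (k + 1))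
        ≤ A (m + 1) k * ((((m : ℝ) + 2 - (k + 1)) * A (m + 2) (k + 1)) * A (m + 1) l) := by
      nlinarith [a1, a2]
    exact le_of_mul_le_mul_left this hpos

lemma F1 (m : ℕ) (l k : ℤ) (h : l ≤ k) :
    A (m + 2) l * A (m + 1) k ≤ A (m + 2) k * A (m + 1) l := by
  have hR : 0 ≤ A (m + 2) k * A (m + 1) l := mul_nonneg (A_nonneg _ _) (A_nonneg _ _)
  by_cases h1 : (m : ℤ) + 1 ≤ k
  · rw [A_big (m + 1) k (by push_cast; omega) (by omega), mul_zero]; exact hR
  have h2 : (l : ℝ) ≤ (k : ℝ) := by exact_mod_cast h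
  have h3 : (k : ℝ) ≤ (m : ℝ) := by exact_mod_cast (by omega : k ≤ (m : ℤ))
  have h4 := F3 m l k h
  have a1 : 0 ≤ ((k : ℝ) - l) * (A (m + 2) k * A (m + 1) l) := mul_nonneg (by linarith) hR
  have : ((m : ℝ) + 2 - l) * (A (m + 2) l * A (m + 1) k)
      ≤ ((m : ℝ) + 2 - l) * (A (m + 2) k * A (m + 1) l) := by nlinarith [h4, a1]
  exact le_of_mul_le_mul_left this (by linarith)

lemma F2 (m : ℕ) (k j : ℤ) (h : k ≤ j) :
    A (m + 2) j * A (m + 1) (k - 1) ≤ A (m + 2) k * A (m + 1) (j - 1) := by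
  have h1 := F1 m ((m : ℤ) + 1 - j) ((m : ℤ) + 1 - k) (by omega)
  have e1 := A_symm (m + 1) j
  have e2 := A_symm (m + 1) k
  have e3 := A_symm m (j - 1)
  have e4 := A_symm m (k - 1)
  push_cast at e1 e2
  have c3 : (m : ℤ) - (j - 1) = m + 1 - j := by ring
  have c4 : (m : ℤ) - (k - 1) = m + 1 - k := by ring
  rw [c3] at e3
  rw [c4] at e4
  rw [e1, e2, e3, e4] at h1
  exact h1

lemma sum_sym_nonneg (I : Finset ℕ) (F : ℕ → ℕ → ℝ) (h : ∀ k l, 0 ≤ F k l + F l k) :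
    0 ≤ ∑ k ∈ I, ∑ l ∈ I, F k l := by
  have e : ∑ k ∈ I, ∑ l ∈ I, F k l = ∑ k ∈ I, ∑ l ∈ I, F l k := Finset.sum_comm
  have h2 : 0 ≤ ∑ k ∈ I, ∑ l ∈ I, (F k l + F l k) :=
    Finset.sum_nonneg fun k _ => Finset.sum_nonneg fun l _ => h k l
  simp only [Finset.sum_add_distrib] at h2
  linarith

lemma lcx_cross (x : ℕ → ℝ) (h0 : ∀ n, 0 ≤ x n) (h : ∀ k, x (k + 1) ^ 2 ≤ x k * x (k + 2))
    (l k : ℕ) (hlk : l ≤ k) : x k * x (l + 1) ≤ x (k + 1) * x l := by
  induction k, hlk using Nat.le_induction with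
  | base => rw [mul_comm]
  | succ k hk ih =>
    rcases (h0 (k + 1)).eq_or_lt with h1 | h1
    · rw [← h1, zero_mul]; exact mul_nonneg (h0 _) (h0 _)
    rcases (h0 k).eq_or_lt with h2 | h2
    · have := h k
      rw [← h2] at this
      nlinarith
    have a1 := mul_le_mul_of_nonneg_left ih (h0 (k + 1))
    have a2 := mul_le_mul_of_nonneg_right (h k) (h0 l)
    have : x k * (x (k + 1) * x (l + 1)) ≤ x k * (x (k + 1 + 1) * x l) := by nlinarith [a1, a2]
    exact le_of_mul_le_mul_left this h2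

/-- the Eulerian transform, summed over `range N` -/
noncomputable def Z (N n : ℕ) (x : ℕ → ℝ) : ℝ := ∑ k ∈ range N, A n k * x k

lemma Z_succ (N n : ℕ) (hN : n < N) (x : ℕ → ℝ) :
    Z (N + 1) (n + 1) x
      = Z (N + 1) n (fun d => ((d : ℝ) + 1) * x d + ((n : ℝ) - d) * x (d + 1)) := by
  unfold Z
  simp only [A_succ, add_mul, mul_add, Finset.sum_add_distrib]
  have e1 : ∑ k ∈ range (N + 1), ((n : ℝ) + 1 - ((k : ℤ) : ℝ)) * A n ((k : ℤ) - 1) * x k
      = ∑ k ∈ range (N + 1), A n k * (((n : ℝ) - k) * x (k + 1)) := by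
    rw [Finset.sum_range_succ', Finset.sum_range_succ (n := N),
      A_big n N (by exact_mod_cast hN.le) (by exact_mod_cast (by omega : 1 ≤ N)),
      A_neg n (((0 : ℕ) : ℤ) - 1) (by simp)]
    simp only [mul_zero, zero_mul, add_zero]
    refine Finset.sum_congr rfl fun k _ => ?_
    have : ((k + 1 : ℕ) : ℤ) - 1 = k := by push_cast; ring
    rw [this]; push_cast; ring
  rw [e1]
  congr 1
  congr 1 <;> refine Finset.sum_congr rfl fun k _ => ?_ <;> push_cast <;> ring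

lemma Z_ext (N n : ℕ) (hN : n < N) (x : ℕ → ℝ) : Z (N + 1) n x = Z N n x := by
  unfold Z
  rw [Finset.sum_range_succ,
    A_big n N (by exact_mod_cast hN.le) (by exact_mod_cast (by omega : 1 ≤ N))]
  simp

lemma Z_ext' (N n : ℕ) (hN : n < N) (x : ℕ → ℝ) : Z N n x = Z (n + 1) n x := by
  induction N, hN using Nat.le_induction with
  | base => rfl
  | succ N h ih => rw [Z_ext N n h, ih]

theorem main_big (x : ℕ → ℝ) (h0 : ∀ n, 0 ≤ x n) (h : ∀ k, x (k + 1) ^ 2 ≤ x k * x (k + 2))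
    (m N : ℕ) (hN : m + 2 < N) :
    Z (N + 1) (m + 2) x ^ 2 ≤ Z (N + 1) (m + 1) x * Z (N + 1) (m + 3) x := by
  have e3 := Z_succ N (m + 2) hN x
  have e2 := Z_succ N (m + 1) (by omega) x
  have t1 : 0 ≤ ∑ k ∈ range (N + 1), ∑ l ∈ range (N + 1),
      A (m + 2) k * A (m + 1) l * (((k : ℝ) - l) * (x k * x l)) := by
    apply sum_sym_nonneg
    intro k l
    have hx : 0 ≤ x k * x l := mul_nonneg (h0 _) (h0 _)
    rcases le_total k l with hkl | hkl
    · have f := F1 m k l (by exact_mod_cast hkl)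
      have c : (k : ℝ) ≤ l := by exact_mod_cast hkl
      have := mul_nonneg (mul_nonneg (sub_nonneg.2 f) (sub_nonneg.2 c)) hx
      nlinarith [this]
    · have f := F1 m l k (by exact_mod_cast hkl)
      have c : (l : ℝ) ≤ k := by exact_mod_cast hkl
      have := mul_nonneg (mul_nonneg (sub_nonneg.2 f) (sub_nonneg.2 c)) hx
      nlinarith [this]
  have t2 : 0 ≤ ∑ k ∈ range (N + 1), ∑ l ∈ range (N + 1),
      A (m + 2) k * A (m + 1) l * (((m : ℝ) + 2 - k) * (x (k + 1) * x l - x k * x (l + 1))) := by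
    apply sum_sym_nonneg
    intro k l
    rcases le_total k l with hkl | hkl
    · have f := F3 m k l (by exact_mod_cast hkl)
      have c := lcx_cross x h0 h k l hkl
      have := mul_nonneg (sub_nonneg.2 f) (sub_nonneg.2 c)
      push_cast at this
      nlinarith [this]
    · have f := F3 m l k (by exact_mod_cast hkl)
      have c := lcx_cross x h0 h l k hkl
      have := mul_nonneg (sub_nonneg.2 f) (sub_nonneg.2 c)
      push_cast at this
      nlinarith [this]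
  have t3 : 0 ≤ ∑ k ∈ range (N + 2), ∑ j ∈ range (N + 2),
      A (m + 2) k * A (m + 1) ((j : ℤ) - 1) * (((j : ℝ) - k) * (x k * x j)) := by
    apply sum_sym_nonneg
    intro k l
    have hx : 0 ≤ x k * x l := mul_nonneg (h0 _) (h0 _)
    rcases le_total k l with hkl | hkl
    · have f := F2 m k l (by exact_mod_cast hkl)
      have c : (k : ℝ) ≤ l := by exact_mod_cast hkl
      have := mul_nonneg (mul_nonneg (sub_nonneg.2 f) (sub_nonneg.2 c)) hx
      nlinarith [this]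
    · have f := F2 m l k (by exact_mod_cast hkl)
      have c : (l : ℝ) ≤ k := by exact_mod_cast hkl
      have := mul_nonneg (mul_nonneg (sub_nonneg.2 f) (sub_nonneg.2 c)) hx
      nlinarith [this]
  have t3' : ∑ k ∈ range (N + 2), ∑ j ∈ range (N + 2),
      A (m + 2) k * A (m + 1) ((j : ℤ) - 1) * (((j : ℝ) - k) * (x k * x j))
      = ∑ k ∈ range (N + 1), ∑ l ∈ range (N + 1),
      A (m + 2) k * A (m + 1) l * (((l : ℝ) + 1 - k) * (x k * x (l + 1))) := by
    rw [Finset.sum_range_succ (n := N + 1),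
      A_big (m + 2) ((N + 1 : ℕ) : ℤ) (by push_cast; omega) (by push_cast; omega)]
    simp only [zero_mul, Finset.sum_const_zero, add_zero]
    refine Finset.sum_congr rfl fun k _ => ?_
    rw [Finset.sum_range_succ', A_neg (m + 1) (((0 : ℕ) : ℤ) - 1) (by simp)]
    simp only [mul_zero, zero_mul, add_zero]
    refine Finset.sum_congr rfl fun l _ => ?_
    have : ((l + 1 : ℕ) : ℤ) - 1 = l := by push_cast; ring
    rw [this]; push_cast; ring
  rw [t3'] at t3
  have key : Z (N + 1) (m + 3) x * Z (N + 1) (m + 1) x - Z (N + 1) (m + 2) x * Z (N + 1) (m + 2) x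
      = ∑ k ∈ range (N + 1), ∑ l ∈ range (N + 1),
        (A (m + 2) k * A (m + 1) l * (((k : ℝ) - l) * (x k * x l))
        + A (m + 2) k * A (m + 1) l * (((m : ℝ) + 2 - k) * (x (k + 1) * x l - x k * x (l + 1)))
        + A (m + 2) k * A (m + 1) l * (((l : ℝ) + 1 - k) * (x k * x (l + 1)))) := by
    nth_rewrite 2 [e2]
    rw [e3]
    unfold Z
    rw [Finset.sum_mul_sum, Finset.sum_mul_sum, ← Finset.sum_sub_distrib]
    refine Finset.sum_congr rfl fun k _ => ?_
    rw [← Finset.sum_sub_distrib]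
    refine Finset.sum_congr rfl fun l _ => ?_
    push_cast; ring
  simp only [Finset.sum_add_distrib] at key
  nlinarith [key, t1, t2, t3]

theorem main_alg (x : ℕ → ℝ) (h0 : ∀ n, 0 ≤ x n) (h : ∀ k, x (k + 1) ^ 2 ≤ x k * x (k + 2))
    (n : ℕ) : Z (n + 2) (n + 1) x ^ 2 ≤ Z (n + 1) n x * Z (n + 3) (n + 2) x := by
  cases n with
  | zero =>
    have a := h0 0
    have b := h0 1
    simp [Z, Finset.sum_range_succ, A_succ, A_zero]
    nlinarith [mul_nonneg a b]
  | succ m =>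
    have := main_big x h0 h m (m + 3) (by omega)
    rw [Z_ext' _ _ (by omega), Z_ext' (m + 3 + 1) (m + 1) (by omega)] at this
    exact this

end Pool.Agent.H.MP_aa6e80_co
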