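import Pool.Agent.H.MP_aa6e80_co.Alg

set_option autoImplicit false

namespace Pool.Agent.H.MP_aa6e80_co

open Finset

/-- number of descents of `a :: l` -/
def desF : ℕ → List ℕ → ℕ
  | _, [] => 0
  | a, y :: ys => (if y < a then 1 else 0) + desF y ys

lemma ins_sum (t : ℕ) (l : List ℕ) (hl : ∀ y ∈ l, y < t) : ∀ (a : ℕ) (_ : a ≤ t) (x : ℕ → ℝ),
    ((List.permutations'Aux t l).map (fun l' => x (desF a l'))).sum
      = ((desF a l : ℝ) + 1) * x (desF a l) + ((l.length : ℝ) - desF a l) * x (desF a l + 1) := by
  induction l with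
  | nil =>
    intro a ha x
    simp [List.permutations'Aux, desF, not_lt.2 ha]
  | cons y ys ih =>
    intro a ha x
    have hy : y < t := hl y (by simp)
    have ih' := ih (fun z hz => hl z (by simp [hz])) y hy.le
    simp only [List.permutations'Aux, List.map_cons, List.sum_cons, List.map_map,
      Function.comp_def, desF, if_neg (not_lt.2 ha), if_pos hy, List.length_cons]
    by_cases h : y < a
    · simp only [if_pos h]
      have := ih' (fun d => x (1 + d))
      rw [this]
      have e : 1 + (desF y ys + 1) = 1 + desF y ys + 1 := by ring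
      simp only [e, zero_add]
      push_cast; ring
    · simp only [if_neg h, zero_add]
      rw [ih' x]
      have e : 1 + desF y ys = desF y ys + 1 := by ring
      rw [e]
      push_cast; ring

/-- all arrangements of `0..n-1` -/
def arr (n : ℕ) : List (List ℕ) := (List.range n).reverse.permutations'

lemma mem_arr (n : ℕ) (l : List ℕ) : l ∈ arr n ↔ l.Perm (List.range n) := by
  unfold arr
  rw [List.mem_permutations']
  exact ⟨fun h => h.trans (List.reverse_perm _), fun h => h.trans (List.reverse_perm _).symm⟩

lemma nodup_arr (n : ℕ) : (arr n).Nodup := by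
  unfold arr
  have h := List.nodup_permutations (List.range n).reverse
    (List.nodup_reverse.2 List.nodup_range)
  exact (List.permutations_perm_permutations' _).nodup_iff.1 h

lemma arr_succ (n : ℕ) : arr (n + 1) = (arr n).flatMap (List.permutations'Aux n) := by
  unfold arr
  rw [List.range_succ, List.reverse_append]
  simp [List.permutations']

lemma sum_flat (L : List (List ℕ)) (g : List ℕ → List (List ℕ)) (f : List ℕ → ℝ) :
    ((L.flatMap g).map f).sum = (L.map (fun l => ((g l).map f).sum)).sum := by
  induction L with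
  | nil => simp
  | cons a L ih => simp [List.flatMap_cons, ih]

lemma arr_sum (n : ℕ) : ∀ x : ℕ → ℝ,
    ((arr n).map (fun l => x (desF 0 l))).sum = Z (n + 1) n x := by
  induction n with
  | zero => intro x; simp [arr, List.permutations', desF, Z, A_zero]
  | succ n ih =>
    intro x
    rw [Z_succ (n + 1) n (by omega), Z_ext (n + 1) n (by omega), ← ih, arr_succ, sum_flat]
    congr 1
    refine List.map_congr_left fun l hl => ?_
    have hp := (mem_arr n l).1 hl
    rw [ins_sum n l (fun y hy => List.mem_range.1 (hp.subset hy)) 0 (Nat.zero_le _) x,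
      hp.length_eq, List.length_range]

lemma desF_eq (l : List ℕ) : ∀ a : ℕ, desF a l
    = ∑ i ∈ range l.length, if (a :: l).getD (i + 1) 0 < (a :: l).getD i 0 then 1 else 0 := by
  induction l with
  | nil => intro a; simp [desF]
  | cons y ys ih =>
    intro a
    rw [desF, ih y, List.length_cons, Finset.sum_range_succ', add_comm]
    simp

/-- the list of values of a permutation -/
def lst {n : ℕ} (σ : Equiv.Perm (Fin n)) : List ℕ := List.ofFn (fun i => (σ i : ℕ))

lemma lst_getD {n : ℕ} (σ : Equiv.Perm (Fin n)) (i : ℕ) (hi : i < n) :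
    (lst σ).getD i 0 = σ ⟨i, hi⟩ := by
  unfold lst
  rw [List.getD_eq_getElem _ _ (by simpa using hi)]
  simp

lemma des_card {n : ℕ} (σ : Equiv.Perm (Fin n)) :
    ((Finset.univ : Finset (Fin n × Fin n)).filter
      (fun p => p.2.val = p.1.val + 1 ∧ σ p.2 < σ p.1)).card = desF 0 (lst σ) := by
  rw [desF_eq]
  have hl : (lst σ).length = n := by simp [lst]
  rw [hl, ← Finset.card_filter]
  refine Finset.card_bij (fun p _ => p.2.val) ?_ ?_ ?_
  · intro p hp
    simp only [Finset.mem_filter, Finset.mem_univ, true_and] at hp
    simp only [Finset.mem_filter, Finset.mem_range]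
    refine ⟨p.2.2, ?_⟩
    rw [List.getD_cons_succ, lst_getD σ _ p.2.2]
    conv_rhs => rw [hp.1, List.getD_cons_succ, lst_getD σ _ p.1.2]
    exact hp.2
  · intro p hp q hq h
    simp only [Finset.mem_filter, Finset.mem_univ, true_and] at hp hq
    have h1 : p.1 = q.1 := Fin.ext (by have := hp.1; have := hq.1; omega)
    exact Prod.ext h1 (Fin.ext h)
  · intro i hi
    simp only [Finset.mem_filter, Finset.mem_range] at hi
    obtain ⟨h1, h2⟩ := hi
    cases i with
    | zero => simp at h2
    | succ j =>
      rw [List.getD_cons_succ, List.getD_cons_succ, lst_getD σ _ h1,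
        lst_getD σ j (by omega)] at h2
      refine ⟨(⟨j, by omega⟩, ⟨j + 1, h1⟩), ?_, rfl⟩
      simp only [Finset.mem_filter, Finset.mem_univ, true_and]
      exact h2

lemma perm_sum (n : ℕ) (f : List ℕ → ℝ) :
    ∑ σ : Equiv.Perm (Fin n), f (lst σ) = ((arr n).map f).sum := by
  rw [← List.sum_toFinset f (nodup_arr n)]
  refine Finset.sum_bij (fun σ _ => lst σ) ?_ ?_ ?_ ?_
  · intro σ _
    rw [List.mem_toFinset, mem_arr]
    have hn : (lst σ).Nodup := by
      unfold lst
      rw [List.nodup_ofFn]
      intro i j hij
      exact σ.injective (Fin.ext hij)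
    rw [List.perm_ext_iff_of_nodup hn List.nodup_range]
    intro a
    simp only [lst, List.mem_ofFn, List.mem_range]
    constructor
    · rintro ⟨i, rfl⟩; exact (σ i).2
    · intro ha; exact ⟨σ.symm ⟨a, ha⟩, by simp⟩
  · intro σ _ τ _ h
    unfold lst at h
    have := List.ofFn_injective h
    ext i
    exact congrFun this i
  · intro l hl
    rw [List.mem_toFinset, mem_arr] at hl
    have hlen : l.length = n := by rw [hl.length_eq, List.length_range]
    have hn : l.Nodup := hl.nodup_iff.2 List.nodup_range
    have hlt : ∀ i : Fin n, l[i.val]'(by rw [hlen]; exact i.2) < n := fun i =>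
      List.mem_range.1 (hl.subset (List.getElem_mem _))
    let g : Fin n → Fin n := fun i => ⟨l[i.val]'(by rw [hlen]; exact i.2), hlt i⟩
    have hg : Function.Injective g := by
      intro i j hij
      have h1 : l[i.val]'(by rw [hlen]; exact i.2) = l[j.val]'(by rw [hlen]; exact j.2) :=
        congrArg Fin.val hij
      exact Fin.ext ((List.Nodup.getElem_inj_iff hn).1 h1)
    refine ⟨Equiv.ofBijective g (Finite.injective_iff_bijective.1 hg), Finset.mem_univ _, ?_⟩
    apply List.ext_getElem
    · simp [lst, hlen]
    · intro i h1 h2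
      simp [lst, g]
  · intro σ _; rfl

lemma card_eq (n k : ℕ) (hk : k < n + 1) :
    (((Finset.univ : Finset (Equiv.Perm (Fin n))).filter
      (fun σ => ((Finset.univ : Finset (Fin n × Fin n)).filter
        (fun p => p.2.val = p.1.val + 1 ∧ σ p.2 < σ p.1)).card = k)).card : ℝ) = A n k := by
  have h1 := arr_sum n (fun d => if d = k then 1 else 0)
  rw [← perm_sum] at h1
  simp only [des_card]
  rw [Finset.card_filter]
  push_cast
  rw [h1]
  unfold Z
  simp [hk]

end Pool.Agent.H.MP_aa6e80_co
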